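import Mathlib
import Pool.Agent.H534.NW.QRW

/-!
# Almost prime tuplets `q r_1 + 1, ..., q r_l + 1`, uniformly in the `r_j` up to any power of `x`, at all the
# places of every narrow shape

The coefficients `r_1, ..., r_l ≤ H ^ E` are arbitrary positive integers (in the problem `r_j ≤ b log x`), and
the constants do not depend on them.  For every shape `b_1, ..., b_k` (no exceptions) and a positive proportion
of the multiples `D = W d`, `d ≤ X`, of a small modulus `W` which depends on the shape, for all `X` between a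
power of `log H` and `(H / (W b_i)) ^ (1 / 3)`, the tuplets are simultaneously almost primes for all the `k + 1`
values `q`, `q + D b_1`, ..., `q + D b_k` of the variable, for many `q` of an arbitrary interval `(Y, Y + H]`.
The same is true inside every set of such `q` of positive relative density, hence also for the prime tuplets if
there are as many of them as expected; and for the variables `q` which form whole strings of consecutive primes
in windows longer than any constant, with all the `q r_j + 1` almost prime.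

The modulus `W = WS σ b H` is the product of the primes `p ≤ (log H) ^ (1 - σ)` such that `p ≤ log log H` or two
of the numbers `0, b_1, ..., b_k` are congruent modulo `p`; it is always `H ^ o(1)`, and for fixed `b` a bounded
power of `log H`.

Proof.  The relative multidimensional Szemerédi theorem for shapes of polynomial size and narrow differences
(`Pool.Agent.H534.NW`), uniform in systems of linear forms with coefficients up to a power of `H`, and the lower
bounds for almost primes of the library, uniform in the forms (a sieve, and a Maynard-Tao theorem).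
-/

set_option autoImplicit false

open Finset Filter

namespace Pool.Agent.Results.MP_d018b2_nt.EveryShapeOfTuplets

open Pool.Agent.H534.NW (WS Shapes ShapesV)

/-- no prime divides `q (q r_1 + 1) ... (q r_l + 1)` for all `q` -/
def Admissible {l : ℕ} (r : Fin l → ℕ) : Prop := ∀ p : ℕ, p.Prime → ∃ q : ℕ, ¬ p ∣ q ∧ ∀ j, ¬ p ∣ q * r j + 1

open Classical in
/-- `w(p)`: the number of the residue classes `q` modulo `p` for which `p` divides `∏ j, (q r_j + 1)` -/
noncomputable def w {l : ℕ} (r : Fin l → ℕ) (p : ℕ) : ℕ := ((range p).filter (fun q => ∃ j, p ∣ q * r j + 1)).card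

/-- the product of the `1 - w(p) / p` over the primes `p ≤ z` -/
noncomputable def V {l : ℕ} (r : Fin l → ℕ) (z : ℕ) : ℝ :=
  ∏ p ∈ (Icc 1 z).filter Nat.Prime, (1 - (w r p : ℝ) / p)

/-- All prime factors of `n` are larger than `y`. -/
def Rough (y : ℝ) (n : ℕ) : Prop := ∀ q : ℕ, q.Prime → q ∣ n → y < (q : ℝ)

open Classical in
/-- the `q` of `(Y, Y + H]` for which all `q r_j + 1` have at most `R` prime factors, all larger than `y` -/
noncomputable def AlmostPrimes {l : ℕ} (r : Fin l → ℕ) (R : ℕ) (y : ℝ) (Y H : ℕ) : Finset ℕ :=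
  (Ioc Y (Y + H)).filter (fun q => ∀ j, (q * r j + 1).primeFactorsList.length ≤ R ∧ Rough y (q * r j + 1))

lemma V_eq {l : ℕ} (r : Fin l → ℕ) (z : ℕ) : V r z = Pool.Agent.H534.RT.QV r z := rfl

/-- **All `r_j`, every narrow shape.** Let `k ≥ 1` and `κ > 0`; the constants `c > 0`, `0 < σ ≤ 1 / 2` and `L` do
not depend on `r_1, ..., r_l` nor on the sets.  `ShapesV k v c σ L H A` means: for all `X ≥ (log H) ^ L` and ALL
distinct `b_1, ..., b_k ≥ 1` with `b_i W X ^ 3 ≤ H`, where `W = WS σ b H`, at least `c X` of the `d ≤ X` are such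
that with `D = W d` at least `c H v ^ (k + 1)` elements `q` of `A` have `q + D b_1, ..., q + D b_k` in `A`.
`Shapes k s c σ L H A` is the same with `H / (log H) ^ (s (k + 1))` in place of `H v ^ (k + 1)`.
(1) For every interval `(Y, Y + H]`, `Y ≤ H ^ E`, and all `1 ≤ r_j ≤ H ^ E` every set `A` of at least
`κ H V(H)` integers `q` of it such that no `q r_j + 1` has a prime factor `≤ H ^ η` has the property
`ShapesV k V(H) c σ L H`.
(2) For large `R`, large `H` and all `H ≤ Y ≤ H ^ E` and `1 ≤ r_j ≤ H ^ E` every subset `A` of relative density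
`≥ κ` of the set of the `q` of `(Y, Y + H]` for which all `q r_j + 1` have at most `(2 E + 1) R` prime factors,
all larger than `H ^ (1 / R)`, has the property `ShapesV k V(H) c σ L H`.
(3) For every `m` there are `η > 0`, `B` and `K` such that for large `x` and all distinct
`1 ≤ r_1, ..., r_l ≤ x ^ E` such that no prime divides `q (q r_1 + 1) ... (q r_l + 1)` for all `q`, there are a
set `P` of at least `m` of the integers `1, ..., K` and a set `S` of integers `n` of `(x / 2, 3 x / 2]` such that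
the primes in `(n, n + log x / (log log x) ^ 2]` are the integers `q = n + t`, `t ∈ P`, and for all of them all
prime factors of all `q r_j + 1` are larger than `x ^ η`, for all `n ∈ S`, and every subset of `S` of relative
density `≥ κ` has the property `Shapes k B c σ L x`. -/
theorem result (l : ℕ) :
    (∀ (k E : ℕ) (η κ : ℝ), 1 ≤ k → 1 ≤ E → 0 < η → 0 < κ → ∃ c σ : ℝ, 0 < c ∧ 0 < σ ∧ σ ≤ 1 / 2 ∧ ∃ L H₀ : ℕ,
      ∀ (H Y : ℕ) (r : Fin l → ℕ) (A : Finset ℕ), H₀ ≤ H → (∀ j, 1 ≤ r j ∧ r j ≤ H ^ E) → Y ≤ H ^ E →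
      A ⊆ Ioc Y (Y + H) → (∀ q ∈ A, ∀ j, Rough ((H : ℝ) ^ η) (q * r j + 1)) → κ * (H * V r H) ≤ A.card →
      ShapesV k (V r H) c σ L H A) ∧
    (∃ R₀ : ℕ, 2 ≤ R₀ ∧ ∀ R : ℕ, R₀ ≤ R → ∀ (k E : ℕ) (κ : ℝ), 1 ≤ k → 1 ≤ E → 0 < κ →
      ∃ c σ : ℝ, 0 < c ∧ 0 < σ ∧ σ ≤ 1 / 2 ∧ ∃ L : ℕ, ∀ᶠ H : ℕ in atTop, ∀ (Y : ℕ) (r : Fin l → ℕ),
      H ≤ Y → Y ≤ H ^ E → (∀ j, 1 ≤ r j ∧ r j ≤ H ^ E) →
      ∀ A ⊆ AlmostPrimes r ((2 * E + 1) * R) ((H : ℝ) ^ (1 / (R : ℝ))) Y H,
      κ * ((AlmostPrimes r ((2 * E + 1) * R) ((H : ℝ) ^ (1 / (R : ℝ))) Y H).card : ℝ) ≤ A.card →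
      ShapesV k (V r H) c σ L H A) ∧
    (∀ m : ℕ, ∃ η : ℝ, 0 < η ∧ ∃ B K : ℕ, ∀ (k E : ℕ) (κ : ℝ), 1 ≤ k → 0 < κ →
      ∃ c σ : ℝ, 0 < c ∧ 0 < σ ∧ σ ≤ 1 / 2 ∧ ∃ L x₀ : ℕ, ∀ x : ℕ, x₀ ≤ x →
      ∀ r : Fin l → ℕ, Function.Injective r → Admissible r → (∀ j, 1 ≤ r j ∧ r j ≤ x ^ E) →
      ∃ P S : Finset ℕ, P ⊆ Icc 1 K ∧ m ≤ P.card ∧ S ⊆ Ioc (x / 2) (x / 2 + x) ∧
      (∀ n ∈ S, (∀ t : ℕ, 1 ≤ t → (t : ℝ) ≤ Real.log x / Real.log (Real.log x) ^ 2 → ((n + t).Prime ↔ t ∈ P)) ∧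
        ∀ t ∈ P, (n + t).Prime ∧ ∀ j, Rough ((x : ℝ) ^ η) ((n + t) * r j + 1)) ∧
      ∀ A ⊆ S, κ * (S.card : ℝ) ≤ A.card → Shapes k B c σ L x A) := by
  classical
  refine ⟨fun k E η κ hk hE hη hκ => ?_, ?_, fun m => ?_⟩
  · obtain ⟨c, σm, hc, hσm, hσm2, hm⟩ := Pool.Agent.H534.NW.qrAW l E k η κ hk hE hη hκ
    obtain ⟨L, H₀, hm⟩ := hm σm hσm le_rfl
    refine ⟨c, σm, hc, hσm, hσm2, L, H₀, fun H Y r A hH hr hY hA hAr hAc => ?_⟩
    exact hm H Y r A hH (fun j => (hr j).1) (fun j => (hr j).2) hY hA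
      (fun n hn p hp hpH j hd => by
        have := hAr n hn j p hp hd
        linarith) hAc
  · obtain ⟨R₀, hR₀, hm⟩ := Pool.Agent.H534.NW.qrBW l
    refine ⟨R₀, hR₀, fun R hR k E κ hk hE hκ => ?_⟩
    obtain ⟨c, σm, hc, hσm, hσm2, h1⟩ := hm R hR k E κ hk hE hκ
    obtain ⟨L, h1⟩ := h1 σm hσm le_rfl
    refine ⟨c, σm, hc, hσm, hσm2, L, ?_⟩
    filter_upwards [h1, eventually_ge_atTop 3, Pool.Agent.H534.RT.len_ev (2 * E + 1) R (by omega) (by omega)]
      with H h2 hH3 h3 Y r hHY hY hr A hA hAc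
    have e : Pool.Agent.H534.RT.QP r Y H R = AlmostPrimes r ((2 * E + 1) * R) ((H : ℝ) ^ (1 / (R : ℝ))) Y H := by
      ext y
      unfold Pool.Agent.H534.RT.QP AlmostPrimes
      rw [mem_filter, mem_filter, mem_Ioc]
      constructor
      · rintro ⟨hy1, hy2⟩
        refine ⟨hy1, fun j => ⟨h3 _ (by omega) ?_ (hy2 j), hy2 j⟩⟩
        have e1 : y ≤ 2 * H ^ E := by
          have h4 := hy1.2
          omega
        have e2 : 1 ≤ H ^ E := Nat.one_le_pow _ _ (by omega)
        have e3 : y * r j ≤ 2 * H ^ E * H ^ E := Nat.mul_le_mul e1 (hr j).2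
        have e4 : 1 ≤ H ^ E * H ^ E := Nat.mul_pos e2 e2
        have e5 : H ^ (2 * E + 1) = H ^ E * H ^ E * H := by ring
        rw [e5]
        have e6 : H ^ E * H ^ E * 3 ≤ H ^ E * H ^ E * H := Nat.mul_le_mul_left _ hH3
        have e7 : 2 * H ^ E * H ^ E = H ^ E * H ^ E * 2 := by ring
        rw [e7] at e3
        omega
      · rintro ⟨hy1, hy2⟩
        exact ⟨hy1, fun j => (hy2 j).2⟩
    rw [← e] at hA hAc
    exact h2 Y r hHY hY (fun j => (hr j).1) (fun j => (hr j).2) A hA hAc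
  · obtain ⟨η, hη, B, K, hm⟩ := Pool.Agent.H534.NW.qrCW m l
    refine ⟨η, hη, B, K, fun k E κ hk hκ => ?_⟩
    obtain ⟨c, σm, hc, hσm, hσm2, h1⟩ := hm k E κ hk hκ
    obtain ⟨L, x₀, h1⟩ := h1 σm hσm le_rfl
    refine ⟨c, σm, hc, hσm, hσm2, L, x₀, fun x hx r hinj hadm hr => ?_⟩
    obtain ⟨P, S, hP1, hP2, hS1, hS2, h2⟩ := h1 x hx r hinj hadm (fun j => (hr j).1) (fun j => (hr j).2)
    refine ⟨P, S, hP1, hP2, hS1, fun n hn => ?_, h2⟩
    obtain ⟨h5, h6⟩ := hS2 n hn
    exact ⟨h5, fun t ht => ⟨(h6 t ht).1, fun j => (h6 t ht).2 j⟩⟩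

end Pool.Agent.Results.MP_d018b2_nt.EveryShapeOfTuplets
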