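import Mathlib
import Pool.Agent.H533.GE.DilH

set_option autoImplicit false

/-!
# Exact prime tuplets `q r + 1`

`w T p`, `S T` are the `w(p)` and the singular product of the problem for the set `T` of the `r_j`, and
`E x t T` is the number of the `q` in `[x, 2x)` for which the integers `r ≤ t log x` with `q r + 1` prime
are exactly the elements of `T`; it is at most the counting function of the problem for `T`.
-/

namespace Pool.Agent.Results.MP_d018b2_nt.ExactTuplets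

open Finset

/-- the number of residue classes `q mod p` with `p ∣ ∏ (q r + 1)` -/
def w (T : Finset ℕ) (p : ℕ) : ℕ := ((range p).filter (fun q => p ∣ ∏ r ∈ T, (q * r + 1))).card

/-- the singular product of the forms `q r + 1`, `r ∈ T` -/
noncomputable def S (T : Finset ℕ) : ℝ :=
  ∏' p : Nat.Primes, (1 - (w T p : ℝ) / ((p : ℕ) : ℝ)) / (1 - 1 / ((p : ℕ) : ℝ)) ^ T.card

/-- `n / φ(n)` -/
noncomputable def G (n : ℕ) : ℝ := (n : ℝ) / Nat.totient n

open Classical in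
/-- the number of the `q`, `x ≤ q < 2x`, such that for the integers `1 ≤ r ≤ t log x` the number
`q r + 1` is prime if `r` belongs to `T` and is not prime if `r` does not belong to `T` -/
noncomputable def E (x : ℕ) (t : ℝ) (T : Finset ℕ) : ℕ :=
  ((Ico x (2 * x)).filter (fun q => ∀ r : ℕ, 1 ≤ r → (r : ℝ) ≤ t * Real.log x →
    ((q * r + 1).Prime ↔ r ∈ T))).card

open Classical in
lemma E_eq {x : ℕ} {t : ℝ} (ht : 0 ≤ t) {T : Finset ℕ} (hT : T ⊆ Icc 1 ⌊t * Real.log x⌋₊) :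
    E x t T = Pool.Agent.H533.GE.EE x ⌊t * Real.log x⌋₊ T := by
  have h0 : 0 ≤ t * Real.log x := mul_nonneg ht (Real.log_natCast_nonneg x)
  unfold E Pool.Agent.H533.GE.EE
  congr 1
  apply filter_congr
  intro q _
  constructor
  · intro h
    ext r
    rw [Pool.Agent.H533.GE.mem_TT, Nat.le_floor_iff h0]
    constructor
    · rintro ⟨⟨a, b⟩, c⟩
      exact (h r a b).1 c
    · intro hr
      have h1 := mem_Icc.1 (hT hr)
      rw [Nat.le_floor_iff h0] at h1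
      exact ⟨h1, (h r h1.1 h1.2).2 hr⟩
  · intro h r h1 h2
    rw [← h, Pool.Agent.H533.GE.mem_TT, Nat.le_floor_iff h0]
    exact ⟨fun h3 => ⟨⟨h1, h2⟩, h3⟩, fun h3 => h3.2⟩

open Classical in
lemma GT_sub {x l : ℕ} {t κ : ℝ} (ht : 0 ≤ t) (R : Finset ℕ) :
    Pool.Agent.H533.GE.GT x ⌊t * Real.log x⌋₊ l κ R ⊆
      ((R.filter (fun r : ℕ => (r : ℝ) ≤ t * Real.log x)).powersetCard l).filter
        (fun T => κ * max 1 (S T) * (x / Real.log x ^ l) ≤ (E x t T : ℝ)) := by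
  have h0 : 0 ≤ t * Real.log x := mul_nonneg ht (Real.log_natCast_nonneg x)
  intro T hT
  unfold Pool.Agent.H533.GE.GT at hT
  rw [mem_filter, mem_powersetCard] at hT
  obtain ⟨⟨h1, h2⟩, h3⟩ := hT
  have hTs : T ⊆ Icc 1 ⌊t * Real.log x⌋₊ := fun r hr => (mem_filter.1 (h1 hr)).2
  rw [mem_filter, mem_powersetCard]
  refine ⟨⟨fun r hr => ?_, h2⟩, ?_⟩
  · rw [mem_filter]
    refine ⟨(mem_filter.1 (h1 hr)).1, ?_⟩
    have := (mem_Icc.1 (hTs hr)).2
    rwa [Nat.le_floor_iff h0] at this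
  · rw [E_eq ht hTs]
    exact h3

open Classical in
/-- (1) For all `m`, `ρ, Λ, C > 0` there is `c > 0` such that for every `B` and all large `x`: if
`A ⊆ J` are sets of positive integers up to `(log x) ^ B`, `∑ G(r) ≥ ρ log x` over `A`,
`∑ G(r) ≤ Λ log x` over `J`, and `∑ G(a) G(b) G(|a - b|) ≤ C (∑ G(r)) ^ 2` over the pairs of distinct
elements of `A`, then for at least `c x` of the `q` in `[x, 2x)` the number `q r + 1` is prime for at
least `m` elements `r` of `A` and for no other element of `J`.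

(2) For all `b, ρ > 0` and `m ≥ 1` there are `M` and `κ > 0` such that for all large `x` and every set
`R` of at least `ρ log x` positive integers up to `b log x` there is `l`, `m ≤ l ≤ M`, such that for at
least `κ (log x) ^ l` of the `l`-element subsets `T` of `R` there are at least
`κ max(1, S T) x / (log x) ^ l` integers `q` in `[x, 2x)` for which `{r ≤ b log x : q r + 1 prime} = T`.

(3) For all `b, ρ > 0` and `m ≥ 1` there are `h ≥ 1` and `κ > 0` such that for all large `x` and every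
such `R` one of the numbers `t = b j / h`, `1 ≤ j ≤ h`, has the property: for at least `κ (log x) ^ m`
of the `m`-element subsets `T` of `R`, with elements up to `t log x`, there are at least
`κ max(1, S T) x / (log x) ^ m` integers `q` in `[x, 2x)` for which
`{r ≤ t log x : q r + 1 prime} = T`. -/
theorem result :
    (∀ (m : ℕ) (ρ Λ C : ℝ), 0 < ρ → 0 < Λ → 0 < C → ∃ c : ℝ, 0 < c ∧ ∀ B : ℕ, ∃ x₀ : ℕ,
      ∀ x : ℕ, x₀ ≤ x → ∀ A J : Finset ℕ, A ⊆ J → (∀ r ∈ J, 1 ≤ r ∧ (r : ℝ) ≤ Real.log x ^ B) →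
      ρ * Real.log x ≤ ∑ r ∈ A, G r → ∑ r ∈ J, G r ≤ Λ * Real.log x →
      ∑ a ∈ A, ∑ b ∈ A.erase a, G a * G b * G (Nat.dist a b) ≤ C * (∑ r ∈ A, G r) ^ 2 →
      c * x ≤ (((Ico x (2 * x)).filter (fun q => m ≤ (A.filter (fun r => (q * r + 1).Prime)).card ∧
        ∀ r ∈ J, (q * r + 1).Prime → r ∈ A)).card : ℝ)) ∧
    ∀ b ρ : ℝ, 0 < b → 0 < ρ → ∀ m : ℕ, 1 ≤ m →
      (∃ M : ℕ, ∃ κ : ℝ, 0 < κ ∧ ∃ x₀ : ℕ, ∀ x : ℕ, x₀ ≤ x → ∀ R : Finset ℕ,
        (∀ r ∈ R, 1 ≤ r ∧ (r : ℝ) ≤ b * Real.log x) → ρ * Real.log x ≤ R.card →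
        ∃ l : ℕ, m ≤ l ∧ l ≤ M ∧ κ * Real.log x ^ l ≤ (((R.powersetCard l).filter
          (fun T => κ * max 1 (S T) * (x / Real.log x ^ l) ≤ (E x b T : ℝ))).card : ℝ)) ∧
      (∃ h : ℕ, 1 ≤ h ∧ ∃ κ : ℝ, 0 < κ ∧ ∃ x₀ : ℕ, ∀ x : ℕ, x₀ ≤ x → ∀ R : Finset ℕ,
        (∀ r ∈ R, 1 ≤ r ∧ (r : ℝ) ≤ b * Real.log x) → ρ * Real.log x ≤ R.card →
        ∃ j : ℕ, 1 ≤ j ∧ j ≤ h ∧ κ * Real.log x ^ m ≤
          ((((R.filter (fun r : ℕ => (r : ℝ) ≤ b * j / h * Real.log x)).powersetCard m).filter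
          (fun T => κ * max 1 (S T) * (x / Real.log x ^ m) ≤ (E x (b * j / h) T : ℝ))).card : ℝ)) := by
  refine ⟨fun m ρ Λ C hρ hΛ hC => Pool.Agent.H533.GE.gen1 m ρ Λ C hρ hΛ hC,
    fun b ρ hb hρ m hm => ⟨?_, ?_⟩⟩
  · obtain ⟨M, κ, hκ, x₀, H⟩ := Pool.Agent.H533.GE.part2 b ρ hb hρ m hm
    refine ⟨M, κ, hκ, x₀, fun x hx R hR hRc => ?_⟩
    obtain ⟨l, h1, h2, h3⟩ := H x hx R (fun r hr => by
      rw [mem_Icc, Nat.le_floor_iff (mul_nonneg hb.le (Real.log_natCast_nonneg x))]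
      exact hR r hr) hRc
    refine ⟨l, h1, h2, h3.trans ?_⟩
    rw [Nat.cast_le]
    apply card_le_card
    refine (GT_sub hb.le R).trans ?_
    intro T hT
    rw [mem_filter, mem_powersetCard] at hT ⊢
    exact ⟨⟨hT.1.1.trans (filter_subset _ _), hT.1.2⟩, hT.2⟩
  · obtain ⟨h, hh, κ, hκ, x₀, H⟩ := Pool.Agent.H533.GE.part3 b ρ hb hρ m hm
    refine ⟨h, hh, κ, hκ, x₀, fun x hx R hR hRc => ?_⟩
    obtain ⟨j, h1, h2, h3⟩ := H x hx R (fun r hr => by
      rw [mem_Icc, Nat.le_floor_iff (mul_nonneg hb.le (Real.log_natCast_nonneg x))]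
      exact hR r hr) hRc
    refine ⟨j, h1, h2, h3.trans ?_⟩
    rw [Nat.cast_le]
    exact card_le_card (GT_sub (by positivity) R)

end Pool.Agent.Results.MP_d018b2_nt.ExactTuplets
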