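import Mathlib
import Pool.Agent.H522.FormsMain
import Pool.Agent.H522.ExactForms
import Pool.Agent.H522.ShatterRandom

/-! # What almost all subfamilies of `t` linear forms (for instance `q r_j + 1`) contain

Let `a i * n + b i`, `i < K`, be an arbitrary admissible family of linear forms with `log K ≥ (4 + δ) k + C`. It is
known (Maynard, Tao; `K ≥ exp (4 k + O (1))`: starting library) that it contains `k` forms which are simultaneously
prime at many `n`. Here we look at the subfamilies with `t` members: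
* all but a proportion `2 exp (- t / (C k ^ 2))` of them contain the exact set `B` of the forms with prime values at
  many `n` (no other form of the whole family has a prime value), for some `B` with at least `k` elements;
* for `t ≥ C k ^ C` all but a proportion `exp (- t ^ (1 / C))` of them contain `k` forms on which ALL `2 ^ k` patterns
  of prime and other values occur, as traces of such sets `B`;
* for all `t ≥ k` at least the proportion `(t / (C (t + k ^ 2))) ^ k` of them contains `k` forms which are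
  simultaneously prime at many `n`.
An arbitrary subfamily of `t` forms is only known to contain about `(log t) / 4` simultaneously prime forms.

Method: the Maynard–Tao probability measure on the integers `n ≤ x` is shown to satisfy upper bounds for all
correlations: the forms in any nonempty set `U` are simultaneously prime with probability at most
`(250 |U| k / K) ^ |U|` (`Pool.Agent.H522.master`); averaging over the subfamilies of size `exp (4 k + O (1))` such a
measure is obtained for all `K`, and then the second moment method is applied; for the second part, samples of small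
size and Pajor's form of the Sauer–Shelah lemma. -/

set_option autoImplicit false

open Filter

namespace Pool.Agent.Results.MP_d018b2_nt.SubfamilyProportions

/-- the forms `a i * n + b i`, `i ∈ S`, are often simultaneously prime: for every `ε > 0` there are arbitrarily
large `x` such that at least `x ^ (1 - ε)` of the integers `0 ≤ n ≤ x` make all of them prime -/
def OftenPrime {K : ℕ} (a b : Fin K → ℤ) (S : Finset (Fin K)) : Prop := ∀ ε : ℝ, 0 < ε → ∃ᶠ x : ℝ in atTop,
  x ^ (1 - ε) ≤ (Set.ncard {n : ℕ | (n : ℝ) ≤ x ∧ ∀ i ∈ S, ∃ p : ℕ, p.Prime ∧ (p : ℤ) = a i * n + b i} : ℝ)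

/-- the subfamily `W` contains `k` forms which are often simultaneously prime -/
def Contains {K : ℕ} (a b : Fin K → ℤ) (k : ℕ) (W : Finset (Fin K)) : Prop :=
  ∃ S : Finset (Fin K), S ⊆ W ∧ S.card = k ∧ OftenPrime a b S

/-- `B` is an exact set of prime values of the family: for every `ε > 0` there are arbitrarily large `x` such that
for at least `x ^ (1 - ε)` of the integers `0 ≤ n ≤ x` the forms `a i * n + b i` with prime values are exactly those
with `i ∈ B` -/
def Exact {K : ℕ} (a b : Fin K → ℤ) (B : Finset (Fin K)) : Prop := ∀ ε : ℝ, 0 < ε → ∃ᶠ x : ℝ in atTop,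
  x ^ (1 - ε) ≤ (Set.ncard {n : ℕ | (n : ℝ) ≤ x ∧ ∀ i, (∃ p : ℕ, p.Prime ∧ (p : ℤ) = a i * n + b i) ↔ i ∈ B} : ℝ)

/-- the subfamily `W` contains an exact set of prime values with at least `k` elements -/
def ContainsExact {K : ℕ} (a b : Fin K → ℤ) (k : ℕ) (W : Finset (Fin K)) : Prop :=
  ∃ B : Finset (Fin K), B ⊆ W ∧ k ≤ B.card ∧ Exact a b B

/-- the subfamily `W` contains `k` forms such that every set of these forms is the trace of an exact set of prime
values contained in `W` -/
def ContainsAllPatterns {K : ℕ} (a b : Fin K → ℤ) (k : ℕ) (W : Finset (Fin K)) : Prop :=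
  ∃ D : Finset (Fin K), D ⊆ W ∧ D.card = k ∧
    ∀ E, E ⊆ D → ∃ B : Finset (Fin K), B ⊆ W ∧ Exact a b B ∧ B ∩ D = E

theorem shift_pow (ε : ℝ) (hε : 0 < ε) (c : ℝ) :
    ∀ᶠ x : ℝ in atTop, x ^ (1 - ε) ≤ (x - c) ^ (1 - ε / 2) := by
  have h5 : Tendsto (fun x : ℝ => (x - c) / x) atTop (nhds 1) := by
    have : Tendsto (fun x : ℝ => 1 - c / x) atTop (nhds (1 - 0)) :=
      tendsto_const_nhds.sub (tendsto_const_nhds.div_atTop tendsto_id)
    rw [sub_zero] at this
    refine this.congr' ?_
    filter_upwards [eventually_gt_atTop (0 : ℝ)] with x hx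
    field_simp
  -- `(x - c) ^ (1 - ε/2) = x ^ (1 - ε/2) * ((x - c) / x) ^ (1 - ε/2)`
  have h6 : Tendsto (fun x : ℝ => ((x - c) / x) ^ (1 - ε / 2)) atTop (nhds (1 ^ (1 - ε / 2))) :=
    h5.rpow_const (Or.inl one_ne_zero)
  rw [Real.one_rpow] at h6
  filter_upwards [eventually_ge_atTop (max 1 (c + 1)), h6.eventually (lt_mem_nhds (show (1 / 2 : ℝ) < 1 by norm_num)),
    (tendsto_rpow_atTop (show (0 : ℝ) < ε / 2 by linarith)).eventually_ge_atTop (2 : ℝ)] with x hx h7 h8
  have hx1 : 1 ≤ x := (le_max_left _ _).trans hx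
  have hx0 : 0 < x := by linarith
  have hxc : 1 ≤ x - c := by linarith [(le_max_right _ _).trans hx]
  have e1 : (x - c) ^ (1 - ε / 2) = x ^ (1 - ε / 2) * ((x - c) / x) ^ (1 - ε / 2) := by
    rw [← Real.mul_rpow hx0.le (by positivity)]
    congr 1
    field_simp
  have e2 : x ^ (1 - ε / 2) = x ^ (1 - ε) * x ^ (ε / 2) := by
    rw [← Real.rpow_add hx0]; congr 1; ring
  have h9 : 0 < x ^ (1 - ε) := Real.rpow_pos_of_pos hx0 _
  rw [e1, e2]
  calc x ^ (1 - ε) = x ^ (1 - ε) * (2 * (1 / 2)) := by ring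
    _ ≤ x ^ (1 - ε) * (x ^ (ε / 2) * ((x - c) / x) ^ (1 - ε / 2)) := by
        apply mul_le_mul_of_nonneg_left _ h9.le
        exact mul_le_mul h8 h7.le (by norm_num) (by positivity)
    _ = _ := by ring

/-- reduction to natural coefficients -/
theorem reduce {K : ℕ} (a b : Fin K → ℤ) (ha : ∀ i, 0 < a i) (hne : ∀ i j, i ≠ j → a i = a j → b i ≠ b j)
    (hadm : ∀ p : ℕ, p.Prime → ∃ n : ℕ, ∀ i, ¬ (p : ℤ) ∣ a i * n + b i) :
    ∃ A B : Fin K → ℕ, Pool.Agent.H522.OkE A B Finset.univ ∧
      (∀ S, Pool.Agent.H522.ExactL A B S → Exact a b S) ∧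
      ∀ S, Pool.Agent.H522.OftenL A B S → OftenPrime a b S := by
  classical
  obtain ⟨N, hN⟩ : ∃ N : ℕ, ∀ i, 0 ≤ a i * N + b i := by
    refine ⟨∑ i, (b i).natAbs, fun i => ?_⟩
    have h1 : (b i).natAbs ≤ ∑ i, (b i).natAbs :=
      Finset.single_le_sum (f := fun i => (b i).natAbs) (fun _ _ => Nat.zero_le _)
        (Finset.mem_univ i)
    have h2 : |b i| ≤ ((∑ i, (b i).natAbs : ℕ) : ℤ) := by
      rw [Int.abs_eq_natAbs]; exact_mod_cast h1
    have h3 := ha i
    have h4 := neg_abs_le (b i)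
    nlinarith
  obtain ⟨A, hA⟩ : ∃ A : Fin K → ℕ, A = fun i => (a i).toNat := ⟨_, rfl⟩
  obtain ⟨B, hB⟩ : ∃ B : Fin K → ℕ, B = fun i => (a i * N + b i).toNat := ⟨_, rfl⟩
  have hAi : ∀ i, ((A i : ℕ) : ℤ) = a i := fun i => by rw [hA]; exact Int.toNat_of_nonneg (ha i).le
  have hBi : ∀ i, ((B i : ℕ) : ℤ) = a i * N + b i := fun i => by rw [hB]; exact Int.toNat_of_nonneg (hN i)
  have hval : ∀ (n : ℕ) (i : Fin K), ((A i * n + B i : ℕ) : ℤ) = a i * ((n + N : ℕ) : ℤ) + b i := by
    intro n i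
    push_cast
    rw [hAi, hBi]; ring
  have hcop : ∀ i, IsCoprime (a i) (b i) := by
    intro i
    rw [Int.isCoprime_iff_gcd_eq_one]
    by_contra hg
    obtain ⟨p, hp, hpd⟩ := Nat.exists_prime_and_dvd hg
    obtain ⟨n, hn⟩ := hadm p hp
    have h1 : (p : ℤ) ∣ a i := (Int.natCast_dvd_natCast.2 hpd).trans (Int.gcd_dvd_left ..)
    have h2 : (p : ℤ) ∣ b i := (Int.natCast_dvd_natCast.2 hpd).trans (Int.gcd_dvd_right ..)
    exact hn i (dvd_add (h1.mul_right _) h2)
  refine ⟨A, B, ⟨fun i => ?_, fun i j hij h => ?_, fun p hp => ?_⟩, fun S hS ε hε => ?_, fun S hS ε hε => ?_⟩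
  · have := ha i
    have h2 := hAi i
    omega
  · have h1 : a i * (a j * N + b j) = a j * (a i * N + b i) := by
      have : ((A i * B j : ℕ) : ℤ) = ((A j * B i : ℕ) : ℤ) := by exact_mod_cast h
      push_cast at this
      rwa [hAi, hAi, hBi, hBi] at this
    have h2 : a i * b j = a j * b i := by linarith
    have h3 : a i ∣ a j := (hcop i).dvd_of_dvd_mul_right (Dvd.intro _ h2)
    have h4 : a j ∣ a i := (hcop j).dvd_of_dvd_mul_right (Dvd.intro _ h2.symm)
    have h5 : a i = a j := by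
      refine le_antisymm (Int.le_of_dvd (ha j) h3) (Int.le_of_dvd (ha i) h4)
    refine hne i j hij h5 ?_
    rw [h5] at h2
    exact (mul_left_cancel₀ (ha j).ne' h2).symm
  · obtain ⟨n, hn⟩ := hadm p hp
    refine ⟨n + (p - 1) * N, fun i _ hd => hn i ?_⟩
    have h1 : (p : ℤ) ∣ ((A i * (n + (p - 1) * N) + B i : ℕ) : ℤ) := by exact_mod_cast hd
    rw [hval] at h1
    have h2 : a i * ((n + (p - 1) * N + N : ℕ) : ℤ) + b i = (a i * n + b i) + p * (a i * N) := by
      have h3 : (n + (p - 1) * N + N : ℕ) = n + p * N := by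
        have := hp.one_lt
        obtain ⟨q, rfl⟩ : ∃ q, p = q + 1 := ⟨p - 1, by omega⟩
        simp; ring
      rw [h3]; push_cast; ring
    rw [h2] at h1
    exact (dvd_add_left (Dvd.intro _ rfl)).1 h1
  · have h1 := hS Finset.univ (ε / 2) (by linarith)
    have h2 : ∃ᶠ x : ℝ in atTop, (x - N) ^ (1 - ε / 2) ≤
        (Set.ncard {n : ℕ | (n : ℝ) ≤ x - N ∧ ∀ i ∈ (Finset.univ : Finset (Fin K)), ((A i * n + B i).Prime ↔ i ∈ S)} : ℝ) := by
      rw [Filter.frequently_atTop] at h1 ⊢
      intro y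
      obtain ⟨x, hx, hx2⟩ := h1 (y - N)
      refine ⟨x + N, by linarith, ?_⟩
      rw [add_sub_cancel_right]
      exact hx2
    refine (h2.and_eventually (shift_pow ε hε N)).mono ?_
    rintro x ⟨h3, h4⟩
    refine h4.trans (h3.trans (Nat.cast_le.2 ?_))
    have hfin : {n : ℕ | (n : ℝ) ≤ x ∧ ∀ i, (∃ p : ℕ, p.Prime ∧ (p : ℤ) = a i * n + b i) ↔ i ∈ S}.Finite := by
      refine (Set.finite_Iic ⌊x⌋₊).subset ?_
      intro n hn
      exact Nat.le_floor hn.1
    refine Set.ncard_le_ncard_of_injOn (fun n => n + N) ?_ (fun n _ n' _ h => by simpa using h) hfin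
    intro n hn
    refine ⟨?_, fun i => ?_⟩
    · push_cast
      linarith [hn.1]
    · rw [← hn.2 i (Finset.mem_univ i)]
      constructor
      · rintro ⟨p, hp, hpv⟩
        have h9 : ((p : ℕ) : ℤ) = ((A i * n + B i : ℕ) : ℤ) := by rw [hpv, hval]
        have h10 : p = A i * n + B i := by exact_mod_cast h9
        rw [← h10]
        exact hp
      · intro hp
        exact ⟨A i * n + B i, hp, hval n i⟩
  · have h1 := hS (ε / 2) (by linarith)
    have h2 : ∃ᶠ x : ℝ in atTop, (x - N) ^ (1 - ε / 2) ≤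
        (Set.ncard {n : ℕ | (n : ℝ) ≤ x - N ∧ ∀ i ∈ S, (A i * n + B i).Prime} : ℝ) := by
      rw [Filter.frequently_atTop] at h1 ⊢
      intro y
      obtain ⟨x, hx, hx2⟩ := h1 (y - N)
      refine ⟨x + N, by linarith, ?_⟩
      rw [add_sub_cancel_right]
      exact hx2
    refine (h2.and_eventually (shift_pow ε hε N)).mono ?_
    rintro x ⟨h3, h4⟩
    refine h4.trans (h3.trans (Nat.cast_le.2 ?_))
    have hfin : {n : ℕ | (n : ℝ) ≤ x ∧ ∀ i ∈ S, ∃ p : ℕ, p.Prime ∧ (p : ℤ) = a i * n + b i}.Finite := by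
      refine (Set.finite_Iic ⌊x⌋₊).subset ?_
      intro n hn
      exact Nat.le_floor hn.1
    refine Set.ncard_le_ncard_of_injOn (fun n => n + N) ?_ (fun n _ n' _ h => by simpa using h) hfin
    intro n hn
    refine ⟨?_, fun i hi => ⟨A i * n + B i, hn.2 i hi, hval n i⟩⟩
    push_cast
    linarith [hn.1]

theorem result (δ : ℝ) (hδ : 0 < δ) : ∃ C : ℕ, 1 ≤ C ∧ ∀ (k K : ℕ) (a b : Fin K → ℤ), 1 ≤ k →
    (∀ i, 0 < a i) → (∀ i j, i ≠ j → a i = a j → b i ≠ b j) →
    (∀ p : ℕ, p.Prime → ∃ n : ℕ, ∀ i, ¬ (p : ℤ) ∣ a i * n + b i) →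
    (4 + δ) * k + C ≤ Real.log K → ∀ t : ℕ, t ≤ K →
    -- few `t`-element subfamilies do not contain an exact set of prime values with at least `k` elements
    (Set.ncard {W : Finset (Fin K) | W.card = t ∧ ¬ ContainsExact a b k W} : ℝ) ≤
      2 * Real.exp (-(t / (C * (k : ℝ) ^ 2))) * (K.choose t : ℝ) ∧
    -- few `t`-element subfamilies, `t ≥ C k ^ C`, do not contain `k` forms with all patterns of prime values
    (C * k ^ C ≤ t → (Set.ncard {W : Finset (Fin K) | W.card = t ∧ ¬ ContainsAllPatterns a b k W} : ℝ) ≤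
      Real.exp (-(t : ℝ) ^ (1 / (C : ℝ))) * (K.choose t : ℝ)) ∧
    -- a lower bound for the number of those which contain `k` simultaneously prime forms, for all `t ≥ k`
    (k ≤ t → ((t : ℝ) / (C * (t + (k : ℝ) ^ 2))) ^ k * (K.choose t : ℝ) ≤
      (Set.ncard {W : Finset (Fin K) | W.card = t ∧ Contains a b k W} : ℝ)) := by
  classical
  obtain ⟨C1, hC1, hmain⟩ := Pool.Agent.H522.almost_all_deltaG δ hδ
  obtain ⟨C2, hC2, hshat⟩ := Pool.Agent.H522.shat_main δ hδ
  obtain ⟨C, hC⟩ : ∃ C : ℕ, C = ⌈C1⌉₊ + C2 + 10 ^ 15 := ⟨_, rfl⟩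
  have hC1C : C1 ≤ C := by
    rw [hC]; push_cast
    have := Nat.le_ceil C1
    have h3 : (0 : ℝ) ≤ C2 := Nat.cast_nonneg _
    linarith
  have hC2C : C2 ≤ C := by omega
  have hC2C' : (C2 : ℝ) ≤ C := by exact_mod_cast hC2C
  have hC3C : (10 ^ 15 : ℝ) ≤ C := by
    have : 10 ^ 15 ≤ C := by omega
    exact_mod_cast this
  have hCpos : (0 : ℝ) < C := by linarith [show (0 : ℝ) < 10 ^ 15 by positivity]
  refine ⟨C, by omega, ?_⟩
  intro k K a b hk ha hne hadm hK t ht
  have hk' : (1 : ℝ) ≤ k := by exact_mod_cast hk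
  obtain ⟨A, B, hok, hexact, hoften⟩ := reduce a b ha hne hadm
  have hspE := Pool.Agent.H522.hasSM_E A B
  have hsp := Pool.Agent.H522.hasSM_L A B
  have hokL : Pool.Agent.H522.OkL A B Finset.univ :=
    ⟨fun i _ => hok.1 i, fun i _ j _ h => hok.2.1 i j h, hok.2.2⟩
  have hcard : (Finset.univ : Finset (Fin K)).card = K := by simp
  have hmono : ∀ S S' : Finset (Fin K), S ⊆ S' → Pool.Agent.H522.OftenL A B S' → Pool.Agent.H522.OftenL A B S :=
    fun S S' h h' => h'.mono h
  refine ⟨?_, fun hkt => ?_, fun hkt => ?_⟩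
  · have h1 := hmain (Fin K) (Pool.Agent.H522.OkE A B) (Pool.Agent.H522.ExactL A B) hspE k Finset.univ hk hok
      (by rw [hcard]; refine le_trans ?_ hK; linarith) t (by rw [hcard]; exact ht)
    rw [hcard] at h1
    have h2 : {W : Finset (Fin K) | W.card = t ∧ ¬ ContainsExact a b k W} ⊆
        (((Finset.univ.powersetCard t).filter (Pool.Agent.H522.BadG (Pool.Agent.H522.ExactL A B) k) :
          Finset (Finset (Fin K))) : Set (Finset (Fin K))) := by
      rintro W ⟨hW, hW2⟩
      rw [Finset.mem_coe, Finset.mem_filter, Finset.mem_powersetCard]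
      refine ⟨⟨Finset.subset_univ _, hW⟩, ?_⟩
      rintro ⟨S, hS, hSk, hSo⟩
      exact hW2 ⟨S, hS, hSk, hexact _ hSo⟩
    have h3 := Set.ncard_le_ncard h2 (Finset.finite_toSet _)
    rw [Set.ncard_coe_finset] at h3
    have h4 : (Set.ncard {W : Finset (Fin K) | W.card = t ∧ ¬ ContainsExact a b k W} : ℝ) ≤
        (((Finset.univ.powersetCard t).filter (Pool.Agent.H522.BadG (Pool.Agent.H522.ExactL A B) k)).card : ℝ) := by
      exact_mod_cast h3
    refine h4.trans (h1.trans ?_)
    apply mul_le_mul_of_nonneg_right _ (Nat.cast_nonneg _)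
    apply mul_le_mul_of_nonneg_left _ (by norm_num)
    apply Real.exp_le_exp.2
    apply neg_le_neg
    apply div_le_div_of_nonneg_left (Nat.cast_nonneg _) (by positivity)
    exact mul_le_mul_of_nonneg_right hC1C (by positivity)
  · have hkt' : C2 * k ^ C2 ≤ t := by
      refine le_trans ?_ hkt
      exact Nat.mul_le_mul hC2C (Nat.pow_le_pow_right hk hC2C)
    have h1 : (((Finset.univ.powersetCard t).filter (fun W => ¬ ∃ D, D.card = k ∧
          Pool.Agent.H522.ShatIn (Pool.Agent.H522.ExactL A B) W D)).card : ℝ) ≤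
        Real.exp (-(t : ℝ) ^ (1 / (C2 : ℝ))) * (K.choose t : ℝ) := by
      have h0 := (hshat (Fin K) (Pool.Agent.H522.OkE A B) (Pool.Agent.H522.ExactL A B) hspE k Finset.univ hk hok
        (by rw [hcard]; refine le_trans ?_ hK; linarith)).2 t (by rw [hcard]; exact ht) hkt'
      rw [hcard] at h0
      convert h0
    have h2 : {W : Finset (Fin K) | W.card = t ∧ ¬ ContainsAllPatterns a b k W} ⊆
        (((Finset.univ.powersetCard t).filter (fun W => ¬ ∃ D, D.card = k ∧
          Pool.Agent.H522.ShatIn (Pool.Agent.H522.ExactL A B) W D) :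
          Finset (Finset (Fin K))) : Set (Finset (Fin K))) := by
      rintro W ⟨hW, hW2⟩
      rw [Finset.mem_coe, Finset.mem_filter, Finset.mem_powersetCard]
      refine ⟨⟨Finset.subset_univ _, hW⟩, ?_⟩
      rintro ⟨D, hD, hD2, hD3⟩
      refine hW2 ⟨D, hD2, hD, fun E hE => ?_⟩
      obtain ⟨S, hS1, hS2, hS3⟩ := hD3 E hE
      exact ⟨S, hS1, hexact _ hS2, hS3⟩
    have h3 := Set.ncard_le_ncard h2 (Finset.finite_toSet _)
    rw [Set.ncard_coe_finset] at h3
    have h4 : (Set.ncard {W : Finset (Fin K) | W.card = t ∧ ¬ ContainsAllPatterns a b k W} : ℝ) ≤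
        (((Finset.univ.powersetCard t).filter (fun W => ¬ ∃ D, D.card = k ∧
          Pool.Agent.H522.ShatIn (Pool.Agent.H522.ExactL A B) W D)).card : ℝ) := by
      exact_mod_cast h3
    refine h4.trans (h1.trans ?_)
    apply mul_le_mul_of_nonneg_right _ (Nat.cast_nonneg _)
    apply Real.exp_le_exp.2
    apply neg_le_neg
    have ht1 : (1 : ℝ) ≤ t := by
      have h5 : 1 ≤ C2 * k ^ C2 := Nat.mul_pos hC2 (Nat.pow_pos hk)
      exact_mod_cast h5.trans hkt'
    apply Real.rpow_le_rpow_of_exponent_le ht1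
    have hC2r : (0 : ℝ) < C2 := by exact_mod_cast hC2
    exact one_div_le_one_div_of_le hC2r hC2C'
  · have hkt' : (k : ℝ) ≤ t := by exact_mod_cast hkt
    have h1 := Pool.Agent.H522.interpG (Pool.Agent.H522.OkL A B) (Pool.Agent.H522.OftenL A B) hsp hmono k
      Finset.univ hk hokL (by
        rw [hcard]
        refine le_trans ?_ hK
        nlinarith) t hkt (by rw [hcard]; exact ht)
    rw [hcard] at h1
    have h2 : (((Finset.univ.powersetCard t).filter (fun W => ∃ S, S ⊆ W ∧ S.card = k ∧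
        Pool.Agent.H522.OftenL A B S) : Finset (Finset (Fin K))) : Set (Finset (Fin K))) ⊆
        {W : Finset (Fin K) | W.card = t ∧ Contains a b k W} := by
      intro W hW
      rw [Finset.mem_coe, Finset.mem_filter, Finset.mem_powersetCard] at hW
      obtain ⟨⟨-, hW1⟩, S, hS, hSk, hSo⟩ := hW
      exact ⟨hW1, S, hS, hSk, hoften _ hSo⟩
    have h3 := Set.ncard_le_ncard h2 (Set.toFinite _)
    rw [Set.ncard_coe_finset] at h3
    have h4 : (((Finset.univ.powersetCard t).filter (fun W => ∃ S, S ⊆ W ∧ S.card = k ∧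
        Pool.Agent.H522.OftenL A B S)).card : ℝ) ≤
        (Set.ncard {W : Finset (Fin K) | W.card = t ∧ Contains a b k W} : ℝ) := by
      exact_mod_cast h3
    refine le_trans ?_ (h1.trans h4)
    apply mul_le_mul_of_nonneg_right _ (Nat.cast_nonneg _)
    have ht0 : (0 : ℝ) < t := by linarith
    apply pow_le_pow_left₀ (by positivity)
    apply div_le_div_of_nonneg_left (by positivity) (by positivity)
    apply mul_le_mul_of_nonneg_right _ (by positivity)
    linarith

end Pool.Agent.Results.MP_d018b2_nt.SubfamilyProportions
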